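import Pool.Agent.H484.AL.Asm

/-!
# MP_6b2836_nt, Q1: average-case lower bound for the discrepancy of lattice point sets

For every `d ≥ 2` and every `χ < 1` there is `C > 0` such that for every `N ≥ 1` at least `χ N^d` of the tuples
`a ∈ {0, ..., N-1}^d` satisfy `D_N(a) ≥ C (log N)^(d-1) log log N / N`: the positive answer to Q1.

Outline.  (1) A Riesz product over a set `K` of dual vectors, any two of which differ by a large factor in every
coordinate, tested against the local discrepancy of shifted cyclic boxes averaged over the shape of the box, gives
`N D_N(a) ≥ c ∑_{k ∈ K} N / ∏ |k_i|`.  (2) For `d ≥ 3` a second moment computation over dyadic-type cells in the dual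
lattice shows that for all but a small proportion of the `a` (for all `N`, not only primes; parallel dual vectors are
treated separately) the dual lattice meets almost as many cells of normalised volume `≍ B^(-t)`,
`B^t` between `(log N)^(d-3/2)` and `(log N)^(d-5/4)`, as expected, with few conflicts, so that the sum in (1) is
`≥ c (log N)^(d-1) log log N`.  (3) For `d = 2` the vectors come from the convergents of a continued fraction and the
sum is bounded below by a truncated sum of partial quotients, whose exponential moment over cylinders is estimated.
-/

set_option autoImplicit false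

namespace Pool.Agent.Results.MP_6b2836_nt.AverageLowerBound

open Finset
open scoped Classical
open Pool.Agent.H484.AL

/-- For every `d ≥ 2` and `χ < 1` there is `C > 0` such that for every `N ≥ 1` at least `χ N^d` of the tuples
`a ∈ {0, ..., N-1}^d` have extreme discrepancy `D_N(a) ≥ C (log N)^(d-1) log log N / N`. -/
theorem result : ∀ d : ℕ, 2 ≤ d → ∀ χ : ℝ, χ < 1 → ∃ C : ℝ, 0 < C ∧ ∀ N : ℕ, 1 ≤ N →
    χ * (N : ℝ) ^ d ≤ ((univ.filter (fun a : Fin d → Fin N =>
      C * ((Real.log (N : ℝ)) ^ (d - 1) * Real.log (Real.log (N : ℝ))) / (N : ℝ) ≤
        Disc d N (fun i => (a i : ℕ)))).card : ℝ) :=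
  final_all

end Pool.Agent.Results.MP_6b2836_nt.AverageLowerBound
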